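import Pool.Agent.Helper67.FlipFinal

/-!
# The flip complex of double wiring diagrams is simply connected

The definitions are in `Pool/Agent/Helper67/FlipDefs.lean`.  With `n = m + 1` strands,

* `DWord m` is the type of double wiring words, `Vertex m` the type of their classes under the
  free commutations, `flipGraph m` the flip graph `G_n`;
* `IsCell c` says that the closed walk `c` is a cycle of length 4, a cycle of length 5, or a cycle
  of length 8 all of whose edges are Coxeter moves of one and the same colour;
* `Homotopic p q` is homotopy of walks with fixed end points in the complex `X_n` obtained from
  `G_n` by attaching a 2-cell along each such cycle: the equivalence relation generated by deleting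
  a backtrack and by deleting one turn around the boundary of a 2-cell.

The theorem says that `X_n` is connected and that every closed walk of `G_n`, based at any vertex,
is null-homotopic in `X_n`; that is, `X_n` is simply connected.
-/

set_option autoImplicit false

namespace Pool.Agent.Results.MP_8f97c4_co.FlipComplex

open Pool.Agent.Helper67.Flip

/-- For every `m` (so for every number `n = m + 1 ≥ 1` of strands) the flip graph `G_n` of double
wiring diagrams is connected and each of its closed walks is null-homotopic in `X_n`. -/
theorem result (m : ℕ) :
    (flipGraph m).Connected ∧
      ∀ (x : Vertex m) (c : (flipGraph m).Walk x x), Homotopic c SimpleGraph.Walk.nil :=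
  simply_connected m

end Pool.Agent.Results.MP_8f97c4_co.FlipComplex
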